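import Mathlib

set_option autoImplicit false

namespace Pool.Agent.H.MP_df5726_co

abbrev C := ℤ × ℤ

def Adj (a b : C) : Prop := |a.1 - b.1| + |a.2 - b.2| = 1

instance (a b : C) : Decidable (Adj a b) := by unfold Adj; infer_instance

def TL : List (List ℕ) := [[302,3,5,110,217,322,224,25,130,33,237,40,44,252,256,60,263,365,267,372,73,377,348],
  [302,3,5,110,217,321,224,25,132,237,342,244,46,150,255,60,263,365,267,372,73,377],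
  [302,3,307,110,215,321,324,126,132,135,42,346,147,251,154,60,263,365,267,372,73,377],
  [0,4,307,112,15,121,324,327,130,32,336,40,44,253,55,161,267,170,273,174,377,348],
  [302,4,307,110,15,321,223,327,32,134,40,44,146,253,55,161,267,170,273,174,377],
  [302,4,307,110,321,223,225,126,33,336,242,44,147,351,52,55,267,170,273,174,377],
  [0,5,112,217,121,224,25,130,33,237,242,346,150,52,154,60,63,267,372,275,377,348],
  [302,307,110,215,321,223,226,32,134,237,40,345,347,253,161,264,166,170,72,275,377],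
  [302,307,110,215,321,223,126,234,135,142,44,147,251,52,256,60,63,267,372,275,377],
  [0,303,305,307,312,20,224,226,332,33,237,40,245,347,51,355,263,166,170,72,174,377],
  [0,303,305,6,221,122,124,227,332,33,36,40,245,47,51,355,263,166,170,72,174,377],
  [0,303,305,307,221,122,124,126,332,334,35,247,251,253,355,60,363,166,372,174,377,258],
  [0,305,307,212,314,322,226,130,133,237,40,343,245,347,51,355,363,166,170,174,377,182],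
  [0,305,6,112,221,124,227,232,133,36,40,343,245,47,51,54,363,166,170,275,377,182],
  [0,305,307,112,221,22,124,126,334,35,141,247,351,253,54,363,166,170,275,377,182,258],
  [0,5,212,314,217,322,25,130,133,237,40,343,345,347,51,264,166,170,172,275,377],
  [0,307,112,215,221,325,126,232,133,36,40,343,345,47,51,264,166,170,172,275,377],
  [0,6,112,215,221,22,325,227,334,337,141,45,351,253,264,166,170,172,275,377,258]]

def LT : List (List ℕ) := [[2,1,0,1,1,1,2,0,0,0,0,1,2,1,1,1,1,0,0,0,2,0,2,0,1,2,0,0,0,1,1,1,2,0,1,0,0,1,1,1,1,1,2,2,0,2,0,2,1,1,1,2,2,0,1,1,0,0,2,0,0,1,0,1,1,2,1,1,0,0,2,0,0,0,0,0,1,1,0,0,0],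
  [0,1,1,1,1,2,0,0,0,2,1,1,1,0,1,0,0,0,2,0,2,0,2,2,0,0,0,0,1,1,1,1,0,0,0,0,0,0,2,1,1,2,1,1,0,0,0,1,0,2,0,1,1,0,0,0,2,1,1,1,1,0,0,0,0,1,1,1,1,1,0,0,0,0,0,0,1,1,0,0,0]]

def DL : List C := [(3,4),(2,4),(3,3),(1,4),(2,3),(3,2),(4,1),(1,3),(2,2),(3,1),(-1,4),(0,3),(1,2),(2,1),(3,0),(4,-1),(-1,3),(0,2),(1,1),(2,0),(3,-1),(4,-2),(-4,3),(-2,3),(-1,2),(0,1),(1,0),(2,-1),(3,-2),(4,-3),(-3,3),(-4,2),(-2,2),(-1,1),(0,0),(1,-1),(2,-2),(3,-3),(-3,2),(-4,1),(-2,1),(-1,0),(0,-1),(1,-4),(1,-2),(2,-3),(-3,1),(-2,0),(-1,-1),(0,-2),(1,-3),(-3,0),(-4,-1),(-2,-1),(-1,-2),(0,-3),(-3,-1),(-2,-2),(-1,-3),(-3,-2),(-2,-3),(-1,-4),(-3,-3),(-2,-4),(-3,-4)]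

def rot (z : C) : C := (-z.2, z.1)
def pm (z : C) : C := (8 * z.1 - z.2, z.1 + 8 * z.2)
def sm (z : C) : C := (8 * z.1 + z.2, -z.1 + 8 * z.2)

def RL : List C := (8, 7) :: (List.range 64).map fun k => ((k % 8 : ℕ), (k / 8 : ℕ))
def QL : List C := [(0, 0), (1, 0), (0, 1)]
def Lp (s : Fin 3) : List C := [((0 : ℤ), (3 : ℤ)), (0, 4)].take s
def Bp (t : Fin 3) : List C := [((3 : ℤ), (0 : ℤ)), (4, 0)].take t

def til (τ : Bool) (s t : Fin 3) : List ℕ := TL.getD (9 * τ.toNat + 3 * s + t) []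
def lam (τ : Bool) (z : C) : ZMod 3 := ((LT.getD τ.toNat []).getD (z.1 + 9 * z.2).toNat 0 : ℕ)
def cel (c : ℕ) (q : C) : C := rot^[c / 100] q + (((c / 10 % 10 : ℕ) : ℤ), ((c % 10 : ℕ) : ℤ))
def wd (τ : Bool) : Fin 3 := if τ then 1 else 2
def ud (τ : Bool) : Fin 3 := if τ then 0 else 2

def Reg (τ : Bool) (s t : Fin 3) (z : C) : Prop := (z ∈ RL ∧ z ∉ Lp s ∧ z ∉ Bp t) ∨
  z - (8, -1) ∈ Lp (s + wd τ) ∨ z - (1, 8) ∈ Bp (t + ud τ)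

instance (τ s t z) : Decidable (Reg τ s t z) := by unfold Reg; infer_instance

lemma k1 : ∀ τ s t, ∀ c ∈ til τ s t, (QL.map fun q => lam τ (cel c q)).sum = 0 ∧
    ∀ q ∈ QL, Reg τ s t (cel c q) := by decide +kernel

lemma k2 : ∀ τ s t, ∀ c ∈ til τ s t, ∀ c' ∈ til τ s t, ∀ q ∈ QL, ∀ q' ∈ QL,
    cel c q = cel c' q' → c = c' := by decide +kernel

lemma k3 : ∀ τ s t, ∀ z ∈ (8, 2) :: (8, 3) :: (4, 8) :: (5, 8) :: RL, Reg τ s t z →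
    ∃ c ∈ til τ s t, ∃ q ∈ QL, cel c q = z := by decide +kernel

lemma k4 : ∀ τ s, (∀ z ∈ Lp s, z ∈ RL ∧ lam τ z = 0 ∧ lam τ (z + (8, -1)) = 0 ∧ ∀ t, z ∉ Bp t) ∧
    (∀ z ∈ Bp s, z ∈ RL ∧ lam τ z = 1 ∧ lam τ (z + (1, 8)) = 1) := by decide +kernel

lemma k5 : ∀ τ, (RL.map (lam τ)).sum = if τ then 0 else 1 := by decide +kernel

lemma k6 : ∀ s, (∀ z ∈ Lp s, z + (8, -1) ∈ (8, 2) :: (8, 3) :: (4, 8) :: (5, 8) :: RL) ∧
    ∀ z ∈ Bp s, z + (1, 8) ∈ (8, 2) :: (8, 3) :: (4, 8) :: (5, 8) :: RL := by decide +kernel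

lemma d1 : (∀ k < 65, ∃ d ∈ DL, (d.1 - 8 * d.2) % 65 = (k : ℕ)) ∧
    ∀ d ∈ DL, ∀ d' ∈ DL, (d.1 - 8 * d.2) % 65 = (d'.1 - 8 * d'.2) % 65 → d = d' := by decide +kernel

lemma r1 : (∀ k < 65, ∃ d ∈ RL, (d.1 + 8 * d.2) % 65 = (k : ℕ)) ∧ RL.Nodup ∧
    ∀ d ∈ RL, ∀ d' ∈ RL, (d.1 + 8 * d.2) % 65 = (d'.1 + 8 * d'.2) % 65 → d = d' := by decide +kernel

lemma d2 : (0 : C) ∈ DL ∧ ∀ d ∈ DL, rot d ∈ DL ∧ ∃ d' ∈ DL, rot d' = d := by decide +kernel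

lemma d3 : ∀ o < 4, rot^[o] (-4, -1) ∈ DL ∧ (∀ u ∈ [((-1 : ℤ), (0 : ℤ)), (0, 1), (0, -1)],
    pm (rot^[o] (1, 0)) + rot^[o] (-4, -1) + rot^[o] u ∈ DL) ∧ ∀ d ∈ DL,
    (∀ u ∈ [((-1 : ℤ), (0 : ℤ)), (0, 1), (0, -1)], d + rot^[o] u ∉ DL) → d = rot^[o] (-4, -1) := by
  decide +kernel

def ok : List C → Bool
  | [] => true
  | [_] => true
  | a :: l => l.any (Adj a ·) && ok l

def PL : List C := DL.map (pm (1, 0) + ·) ++ DL.map (pm (0, 1) + ·) ++ DL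

lemma p1 : ok PL := by decide +kernel

lemma exD (z : C) : ∃ ζ, ∃ d ∈ DL, z = pm ζ + d := by
  obtain ⟨d, a, b⟩ := d1.1 ((z.1 - 8 * z.2) % 65).toNat (by omega)
  refine ⟨(z.2 - d.2 + 8 * ((z.1 - d.1 - 8 * (z.2 - d.2)) / 65), -((z.1 - d.1 - 8 * (z.2 - d.2)) / 65)),
    d, a, Prod.ext ?_ ?_⟩ <;> simp only [pm, Prod.fst_add, Prod.snd_add] <;> omega

lemma unD {ζ ζ' d d' : C} (h : d ∈ DL) (h' : d' ∈ DL) (e : pm ζ + d = pm ζ' + d') : ζ = ζ' ∧ d = d' := by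
  simp only [pm, Prod.ext_iff, Prod.fst_add, Prod.snd_add] at e
  obtain rfl := d1.2 d h d' h' (by omega)
  exact ⟨Prod.ext (by omega) (by omega), rfl⟩

lemma exR (z : C) : ∃ ζ, ∃ d ∈ RL, z = sm ζ + d := by
  obtain ⟨d, a, b⟩ := r1.1 ((z.1 + 8 * z.2) % 65).toNat (by omega)
  refine ⟨(8 * ((z.1 - d.1 + 8 * (z.2 - d.2)) / 65) - (z.2 - d.2), (z.1 - d.1 + 8 * (z.2 - d.2)) / 65),
    d, a, Prod.ext ?_ ?_⟩ <;> simp only [sm, Prod.fst_add, Prod.snd_add] <;> omega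

lemma unR {ζ ζ' d d' : C} (h : d ∈ RL) (h' : d' ∈ RL) (e : sm ζ + d = sm ζ' + d') : ζ = ζ' ∧ d = d' := by
  simp only [sm, Prod.ext_iff, Prod.fst_add, Prod.snd_add] at e
  obtain rfl := r1.2.2 d h d' h' (by omega)
  exact ⟨Prod.ext (by omega) (by omega), rfl⟩

lemma conn : ∀ l : List C, ok l → ∃ r, ∀ a ∈ l,
    Relation.ReflTransGen (fun x y => x ∈ l ∧ y ∈ l ∧ Adj x y) a r
  | [], _ => ⟨0, by simp⟩
  | [a], _ => ⟨a, by simp [Relation.ReflTransGen.refl]⟩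
  | a :: b :: l, h => by
    simp only [ok, Bool.and_eq_true, List.any_eq_true, decide_eq_true_eq] at h
    obtain ⟨⟨c, h1, h2⟩, h⟩ := h
    obtain ⟨r, hr⟩ := conn (b :: l) h
    have k : ∀ x ∈ b :: l, Relation.ReflTransGen (fun x y => x ∈ a :: b :: l ∧ y ∈ a :: b :: l ∧ Adj x y) x r :=
      fun x hx => Relation.ReflTransGen.mono
        (by exact fun _ _ h => ⟨.tail _ h.1, .tail _ h.2.1, h.2.2⟩) _ _ (hr x hx)
    exact ⟨r, List.forall_mem_cons.2 ⟨.head ⟨.head _, .tail _ h1, h2⟩ (k c h1), k⟩⟩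

end Pool.Agent.H.MP_df5726_co
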