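import Pool.Agent.H.MP_df5726_co.A

set_option autoImplicit false

namespace Pool.Agent.H.MP_df5726_co
open Finset

def lev (x : ℤ) (i : ℕ) : Prop := x % 3 ^ (i + 1) = 2 * 3 ^ i

open Classical in
noncomputable def ty (σ : C) : Bool := decide (∃ i, lev σ.1 i ∧ lev σ.2 i)

lemma exrec (f : ℤ → Fin 3) : ∃ g : ℤ → Fin 3, ∀ x, g (x + 1) = g x + f x := by
  refine ⟨fun x => ∑ i ∈ Ico 0 x, f i - ∑ i ∈ Ico x 0, f i, fun x => ?_⟩
  beta_reduce
  rcases le_or_gt 0 x with h | h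
  · rw [show Ico 0 (x + 1) = insert x (Ico 0 x) by ext; simp; omega, sum_insert (by simp),
      Ico_eq_empty (show ¬x < 0 by omega), Ico_eq_empty (show ¬x + 1 < 0 by omega)]
    abel
  · rw [show Ico x 0 = insert x (Ico (x + 1) 0) by ext; simp; omega, sum_insert (by simp),
      Ico_eq_empty (show ¬0 < x by omega), Ico_eq_empty (show ¬0 < x + 1 by omega)]
    abel

def St (s t : C → Fin 3) : Prop :=
  ∀ σ, s (σ + (1, 0)) = s σ + wd (ty σ) ∧ t (σ + (0, 1)) = t σ + ud (ty σ)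

lemma exSt : ∃ s t, St s t := by
  choose g hg using fun y => exrec fun x => wd (ty (x, y))
  choose h hh using fun x => exrec fun y => ud (ty (x, y))
  exact ⟨fun σ => g σ.2 σ.1, fun σ => h σ.1 σ.2, fun σ => by simp [hg, hh]⟩

def tile (σ : C) (c : ℕ) : Finset C := QL.toFinset.image fun q => sm σ + cel c q

def TT (s t : C → Fin 3) : Set (Finset C) := {τ | ∃ σ, ∃ c ∈ til (ty σ) (s σ) (t σ), τ = tile σ c}

noncomputable def om (A B : ℤ → ZMod 3) (σ r : C) : ZMod 3 :=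
  A σ.1 * lam (ty σ) r + B σ.2 * (1 - lam (ty σ) r)

variable {s t : C → Fin 3}

lemma sm_add (a b : C) : sm (a + b) = sm a + sm b := by ext <;> simp [sm] <;> ring
lemma pm_add (a b : C) : pm (a + b) = pm a + pm b := by ext <;> simp [pm] <;> ring
lemma pm_sub (a b : C) : pm (a - b) = pm a - pm b := by ext <;> simp [pm] <;> ring

lemma KL (h : St s t) {σ σ' z r : C} (hz : Reg (ty σ') (s σ') (t σ') z) (hr : r ∈ RL)
    (e : sm σ' + z = sm σ + r) :
    σ' = (if r ∈ Lp (s σ) then σ - (1, 0) else if r ∈ Bp (t σ) then σ - (0, 1) else σ) ∧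
      ∀ A B, om A B σ r = om A B σ' z := by
  rcases hz with ⟨a, b, c⟩ | a | a
  · obtain ⟨rfl, rfl⟩ := unR a hr e
    simp [b, c]
  · obtain ⟨a1, -, a3, -⟩ := (k4 (ty σ') _).1 _ a
    obtain ⟨rfl, rfl⟩ := unR (ζ := σ' + (1, 0)) a1 hr (by rw [← e]; ext <;> simp [sm] <;> ring)
    rw [sub_add_cancel] at a3
    simp [(h σ').1, a, om, a3, ((k4 _ _).1 _ a).2.1]
  · obtain ⟨a1, -, a3⟩ := (k4 (ty σ') _).2 _ a
    obtain ⟨rfl, rfl⟩ := unR (ζ := σ' + (0, 1)) a1 hr (by rw [← e]; ext <;> simp [sm] <;> ring)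
    rw [sub_add_cancel] at a3
    have : z - (1, 8) ∉ Lp (s (σ' + (0, 1))) := fun q => ((k4 true _).1 _ q).2.2.2 _ a
    simp [(h σ').2, a, om, a3, ((k4 _ _).2 _ a).2.1, this]

lemma mem_tile {σ c ζ} : ζ ∈ tile σ c ↔ ∃ q ∈ QL, sm σ + cel c q = ζ := by simp [tile]

lemma part (h : St s t) (ζ : C) : ∃! τ, τ ∈ TT s t ∧ ζ ∈ τ := by
  obtain ⟨σ, r, hr, rfl⟩ := exR ζ
  refine existsUnique_of_exists_of_unique ?_ ?_
  · have : ∃ σ' z, z ∈ (8, 2) :: (8, 3) :: (4, 8) :: (5, 8) :: RL ∧ Reg (ty σ') (s σ') (t σ') z ∧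
        sm σ' + z = sm σ + r := by
      by_cases a : r ∈ Lp (s σ)
      · refine ⟨σ - (1, 0), r + (8, -1), (k6 _).1 r a, .inr (.inl ?_), by ext <;> simp [sm] <;> ring⟩
        rwa [← (h _).1, add_sub_cancel_right, sub_add_cancel]
      by_cases b : r ∈ Bp (t σ)
      · refine ⟨σ - (0, 1), r + (1, 8), (k6 _).2 r b, .inr (.inr ?_), by ext <;> simp [sm] <;> ring⟩
        rwa [← (h _).2, add_sub_cancel_right, sub_add_cancel]
      exact ⟨σ, r, by simp [hr], .inl ⟨hr, a, b⟩, rfl⟩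
    obtain ⟨σ', z, a, b, f⟩ := this
    obtain ⟨c, d, q, e, rfl⟩ := k3 _ _ _ z a b
    exact ⟨_, ⟨σ', c, d, rfl⟩, mem_tile.2 ⟨q, e, f⟩⟩
  · rintro _ _ ⟨⟨σ1, c1, a1, rfl⟩, b1⟩ ⟨⟨σ2, c2, a2, rfl⟩, b2⟩
    obtain ⟨q1, d1, e1⟩ := mem_tile.1 b1
    obtain ⟨q2, d2, e2⟩ := mem_tile.1 b2
    obtain rfl := (KL h ((k1 _ _ _ _ a1).2 _ d1) hr e1).1.trans (KL h ((k1 _ _ _ _ a2).2 _ d2) hr e2).1.symm
    rw [k2 _ _ _ _ a1 _ a2 _ d1 _ d2 (add_left_cancel (e1.trans e2.symm))]

lemma rot_inj : Function.Injective rot := fun a b h => by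
  simp only [rot, Prod.ext_iff] at *; omega

lemma key (h : St s t) {S : Finset (Finset C)} (hS : ↑S ⊆ TT s t) {n m : ℕ} (hn : 0 < n) (hm : 0 < m)
    (fd : ∀ ζ, ∃! l : C, ζ - sm (n * l.1, m * l.2) ∈ S.biUnion id) (A B : ℤ → ZMod 3)
    (per : ∀ σ r (l : C), om A B (σ + (n * l.1, m * l.2)) r = om A B σ r) :
    ∑ x ∈ range n, ∑ y ∈ range m, (if ty (x, y) then 2 * B y else A x + B y) = 0 := by
  choose st lc h1 h2 using exR
  have a : ∑ ζ ∈ S.biUnion id, om A B (st ζ) (lc ζ) = 0 := by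
    rw [sum_biUnion (t := id) fun τ a τ' b ne => disjoint_left.2 fun ζ c d =>
      ne ((part h ζ).unique ⟨hS a, c⟩ ⟨hS b, d⟩)]
    refine sum_eq_zero fun τ hτ => ?_
    obtain ⟨σ, c, hc, rfl⟩ := hS hτ
    obtain ⟨k, k'⟩ := k1 _ _ _ _ hc
    rw [id, tile, sum_image (g := fun q => sm σ + cel c q) fun q _ q' _ e =>
      rot_inj.iterate _ (add_right_cancel (add_left_cancel e)),
      sum_congr rfl fun q hq => (KL h (k' q (List.mem_toFinset.1 hq)) (h1 _) (h2 _)).2 A B,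
      List.sum_toFinset _ (by decide)]
    simp only [QL, om, List.map, List.sum_cons, List.sum_nil] at k ⊢
    have s3 : (3 : ZMod 3) = 0 := rfl
    linear_combination (A σ.1 - B σ.2) * k + B σ.2 * s3
  have b : ∑ ζ ∈ S.biUnion id, om A B (st ζ) (lc ζ) =
      ∑ i ∈ range n ×ˢ range m ×ˢ RL.toFinset, om A B (i.1, i.2.1) i.2.2 := by
    have e : ∀ σ : C, σ = (((σ.1 % n).toNat : ℤ), ((σ.2 % m).toNat : ℤ)) + (n * (σ.1 / n), m * (σ.2 / m)) :=
      fun σ => by
        rw [Int.toNat_of_nonneg (Int.emod_nonneg _ (by omega)), Int.toNat_of_nonneg (Int.emod_nonneg _ (by omega))]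
        simp [Int.emod_add_mul_ediv]
    refine sum_nbij (fun ζ => (((st ζ).1 % n).toNat, ((st ζ).2 % m).toNat, lc ζ)) (fun ζ _ => ?_)
      (fun ζ a ζ' b c => ?_) (fun i hi => ?_) fun ζ _ => ?_
    · have := Int.emod_lt_of_pos (st ζ).1 (show (0 : ℤ) < n by omega)
      have := Int.emod_lt_of_pos (st ζ).2 (show (0 : ℤ) < m by omega)
      simp only [mem_product, mem_range, List.mem_toFinset, h1, and_true]; omega
    · simp only [Prod.mk.injEq] at c
      have u : ζ' - sm (n * ((st ζ').1 / n - (st ζ).1 / n), m * ((st ζ').2 / m - (st ζ).2 / m)) = ζ := by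
        have e1 := Prod.ext_iff.1 (e (st ζ))
        have e2 := Prod.ext_iff.1 (e (st ζ'))
        have f1 := Prod.ext_iff.1 (h2 ζ)
        have f2 := Prod.ext_iff.1 (h2 ζ')
        simp only [sm, Prod.fst_add, Prod.snd_add, c.1, c.2.1, c.2.2] at e1 e2 f1 f2
        ext <;> simp only [sm, Prod.fst_sub, Prod.snd_sub]
        · linear_combination f2.1 - f1.1 + 8 * (e2.1 - e1.1) + (e2.2 - e1.2)
        · linear_combination f2.2 - f1.2 - (e2.1 - e1.1) + 8 * (e2.2 - e1.2)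
      have := (fd ζ').unique (y₁ := ((st ζ').1 / n - (st ζ).1 / n, (st ζ').2 / m - (st ζ).2 / m)) (y₂ := 0)
        (by rwa [u]) (by simpa [sm, Prod.mk_zero_zero] using b)
      simp only [Prod.ext_iff] at this
      rw [← u, this.1, this.2]; simp [sm]
    · obtain ⟨x, y, r⟩ := i
      simp only [coe_product, Set.mem_prod, coe_range, Set.mem_Iio, List.coe_toFinset, Set.mem_setOf] at hi
      obtain ⟨l, hl, -⟩ := fd (sm (x, y) + r)
      refine ⟨_, hl, ?_⟩
      obtain ⟨c, d⟩ := unR (ζ' := ((x : ℤ) + n * -l.1, (y : ℤ) + m * -l.2)) (h1 _) hi.2.2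
        ((h2 (sm (x, y) + r - sm (n * l.1, m * l.2))).symm.trans (by ext <;> simp [sm] <;> ring))
      simp only [c, d, Int.add_mul_emod_self_left, ← Int.natCast_mod, Nat.mod_eq_of_lt hi.1,
        Nat.mod_eq_of_lt hi.2.1, Int.toNat_natCast]
    · exact (congrArg (om A B · _) (e _)).trans (per _ _ ((st ζ).1 / n, (st ζ).2 / m))
  rw [← a, b, sum_product]
  refine sum_congr rfl fun x _ => ?_
  rw [sum_product]
  refine sum_congr rfl fun y _ => ?_
  simp only [om, sum_add_distrib, ← mul_sum, sum_sub_distrib]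
  simp only [List.sum_toFinset _ r1.2.1, k5, show (RL.map fun _ => (1 : ZMod 3)).sum = 2 by decide +kernel]
  split_ifs <;> ring

lemma lev_un {x i j} (a : lev x i) (b : lev x j) : i = j := by
  have k : ∀ i j, lev x i → lev x j → ¬i < j := fun i j a b h => by
    have d : (3 : ℤ) ^ (i + 1) ∣ x := by
      rw [← Int.emod_add_mul_ediv x (3 ^ (j + 1)), b]
      exact dvd_add ((pow_dvd_pow _ h).mul_left _) ((pow_dvd_pow _ (by omega)).mul_right _)
    rw [lev, Int.emod_eq_zero_of_dvd d] at a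
    exact absurd a (by positivity)
  exact le_antisymm (not_lt.1 (k _ _ b a)) (not_lt.1 (k _ _ a b))

lemma lev_one {x : ℤ} (h : x % 3 = 1) (i) : ¬lev x i := fun a => by
  rcases i with _ | i
  · simp [lev] at a; omega
  · have d : (3 : ℤ) ∣ x := by
      rw [← Int.emod_add_mul_ediv x (3 ^ (i + 2)), a]
      exact dvd_add ((dvd_pow_self _ (by omega)).mul_left _) ((dvd_pow_self _ (by omega)).mul_right _)
    omega

lemma psum (f : ℕ → ZMod 3) (M k : ℕ) (h : ∀ y, f (M + y) = f y) :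
    ∑ y ∈ range (M * k), f y = k * ∑ y ∈ range M, f y := by
  induction k with
  | zero => simp
  | succ k ih => rw [mul_add_one, add_comm, sum_range_add]; simp only [h, ih]; push_cast; ring

/-- one line of the torus -/
lemma line {n m : ℕ} (hn : 0 < n) (hm : 0 < m) (h3 : 3 ∣ n) (hv : ∀ i, 3 ^ i ∣ m → 3 ^ i ∣ n)
    (α : ZMod 3) (hα : α ≠ 1) : ∃ x < n, (∀ y k l : ℤ, ty (x + n * k, y + m * l) = ty (x, y)) ∧
      ∑ y ∈ range m, (if ty (x, y) then α else 1) ≠ 0 := by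
  obtain ⟨b, m', h1, rfl⟩ := Nat.exists_eq_pow_mul_and_not_dvd hm.ne' 3 (by norm_num)
  have m0 : (m' : ZMod 3) ≠ 0 := fun q => h1 ((ZMod.natCast_eq_zero_iff _ _).1 q)
  rcases b with _ | b
  · have : ∀ k y : ℤ, ty (1 + n * k, y) = false := fun k y => by
      obtain ⟨n, rfl⟩ := h3
      simp only [ty, decide_eq_false_iff_not]
      exact fun ⟨i, a, _⟩ => lev_one (by push_cast; rw [mul_assoc]; omega) i a
    refine ⟨1, by omega, fun y k l => ?_, ?_⟩
    · simpa [this] using this 0 y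
    · simpa [show ∀ y, ty (1, y) = false by simpa using this 0]
  obtain ⟨n, rfl⟩ := hv (b + 1) (dvd_mul_right ..)
  have lt : 2 * 3 ^ b < 3 ^ (b + 1) := by have := pow_pos (show 0 < 3 by omega) b; omega
  have : ∀ k y : ℤ, ty ((2 * 3 ^ b : ℕ) + (3 ^ (b + 1) * n : ℕ) * k, y) = true ↔ lev y b := fun k y => by
    have : lev ((2 * 3 ^ b : ℕ) + (3 ^ (b + 1) * n : ℕ) * k) b := by
      unfold lev; push_cast
      rw [mul_assoc, Int.add_mul_emod_self_left]
      exact Int.emod_eq_of_lt (by positivity) (by exact_mod_cast lt)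
    simp only [ty, decide_eq_true_eq]
    exact ⟨fun ⟨i, c, d⟩ => lev_un c this ▸ d, fun d => ⟨b, this, d⟩⟩
  have t0 : ∀ y, ty ((2 * 3 ^ b : ℕ), y) = true ↔ lev y b := by simpa using this 0
  refine ⟨2 * 3 ^ b, lt.trans_le (Nat.le_of_dvd hn (dvd_mul_right ..)), fun y k l => ?_, ?_⟩
  · rw [Bool.eq_iff_iff, this, t0, lev, lev]; push_cast
    rw [mul_assoc, Int.add_mul_emod_self_left]
  rw [psum _ _ _ fun y => by simp only [t0, lev]; push_cast; rw [Int.add_emod_left]]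
  refine mul_ne_zero m0 ?_
  rw [sum_congr rfl (g := fun y => 1 + if y = 2 * 3 ^ b then α - 1 else 0) fun y hy => ?_]
  · simp [sum_add_distrib, lt, show (3 : ZMod 3) = 0 from rfl, sub_ne_zero.2 hα]
  · have : lev y b ↔ y = 2 * 3 ^ b := by
      rw [lev, Int.emod_eq_of_lt (by positivity) (by exact_mod_cast mem_range.1 hy)]; norm_cast
    simp only [t0, this]; split_ifs <;> simp

lemma ty_sw (x y : ℤ) : ty (x, y) = ty (y, x) := by simp [ty, and_comm]

lemma mac (h : St s t) {S : Finset (Finset C)} (hS : ↑S ⊆ TT s t) {n m : ℕ} (hn : 0 < n) (hm : 0 < m)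
    (fd : ∀ ζ, ∃! l : C, ζ - sm (n * l.1, m * l.2) ∈ S.biUnion id) : False := by
  have K := key h hS hn hm fd
  have ind : ∀ {n : ℕ} {x : ℕ}, x < n → ∀ y < n, ((y : ℤ) % n = x ↔ y = x) := fun hx y hy => by
    rw [Int.emod_eq_of_lt (by omega) (by omega)]; omega
  have col : 3 ∣ n → ¬∀ i, 3 ^ i ∣ m → 3 ^ i ∣ n := fun h3 hv => by
    obtain ⟨x, a, b, c⟩ := line hn hm h3 hv 0 (by decide)
    refine c (Eq.trans ?_ (K (fun z => if z % n = x then 1 else 0) 0 fun σ r l => ?_))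
    · rw [sum_eq_single_of_mem x (mem_range.2 a) fun y hy ne => by simp [ind a y (mem_range.1 hy), ne]]
      simp [ind a x a]
    · simp only [om, Prod.fst_add, Int.add_mul_emod_self_left, Pi.zero_apply, zero_mul]
      split_ifs with q
      · rw [show σ + _ = (x + n * (σ.1 / n + l.1), σ.2 + m * l.2) from Prod.ext (by
          simp only [← q, Prod.fst_add]; linear_combination -Int.emod_add_mul_ediv σ.1 n) rfl, b,
          ← b _ (σ.1 / n) 0, ← q, Int.emod_add_mul_ediv]; simp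
      · simp
  have row : 3 ∣ m → ¬∀ i, 3 ^ i ∣ n → 3 ^ i ∣ m := fun h3 hv => by
    obtain ⟨x, a, b, c⟩ := line hm hn h3 hv 2 (by decide)
    refine c (Eq.trans ?_ (K 0 (fun z => if z % m = x then 1 else 0) fun σ r l => ?_))
    · rw [sum_comm, sum_eq_single_of_mem x (mem_range.2 a) fun y hy ne => by simp [ind a y (mem_range.1 hy), ne]]
      simp [ind a x a, ty_sw x]
    · simp only [om, Prod.snd_add, Int.add_mul_emod_self_left, Pi.zero_apply, zero_mul]
      split_ifs with q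
      · rw [show σ + _ = (σ.1 + n * l.1, x + m * (σ.2 / m + l.2)) from Prod.ext rfl (by
          simp only [← q, Prod.snd_add]; linear_combination -Int.emod_add_mul_ediv σ.2 m), ty_sw, b,
          ← b _ (σ.2 / m) 0, ← q, Int.emod_add_mul_ediv, ty_sw]; simp
      · simp
  have := K 1 1 fun σ r l => by simp [om]
  simp only [Pi.one_apply, mul_one, one_add_one_eq_two, ite_self, sum_const, card_range, nsmul_eq_mul,
    mul_eq_zero, ZMod.natCast_eq_zero_iff, show (2 : ZMod 3) ≠ 0 by decide, or_false] at this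
  by_cases q : ∀ i, 3 ^ i ∣ m → 3 ^ i ∣ n
  · exact col (this.elim id fun a => by simpa using q 1 (by simpa)) q
  push Not at q
  obtain ⟨i, a, b⟩ := q
  have q : ∀ j, 3 ^ j ∣ n → 3 ^ j ∣ m := fun j c => (pow_dvd_pow 3 (not_lt.1 fun d =>
    b ((pow_dvd_pow 3 d.le).trans c))).trans a
  exact row (this.elim (fun a => by simpa using q 1 (by simpa)) id) q

end Pool.Agent.H.MP_df5726_co
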